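import Pool.Agent.V11320.TR.C

/-!
# Coefficient truncation of polynomials in `L_p` on the circle, `0 < p < 2`

For every `p ∈ (0,2)` the norm of the coefficient truncation operator on complex polynomials of
degree at most `n` is at least `c (n+1)^κ` with `c, κ > 0` depending only on `p`.  In particular
for no `p ∈ (0,2)` it is bounded in `n`.
-/

set_option autoImplicit false

namespace Pool.Agent.Results.MP_2fd64a_an.Unbounded

open Polynomial

/-- Truncation of one coefficient: `a` if `|a| < 1` and `a/|a|` otherwise. -/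
noncomputable def truncCoeff (a : ℂ) : ℂ := if ‖a‖ < 1 then a else a / (‖a‖ : ℂ)

/-- The coefficient truncation operator `S`. -/
noncomputable def S (P : ℂ[X]) : ℂ[X] := ∑ j ∈ P.support, monomial j (truncCoeff (P.coeff j))

/-- The `L_p` (quasi-)norm on the unit circle with respect to arc length. -/
noncomputable def LpNorm (p : ℝ) (P : ℂ[X]) : ℝ :=
  (∫ θ in (0 : ℝ)..(2 * Real.pi), ‖P.eval (Complex.exp (θ * Complex.I))‖ ^ p) ^ (1 / p)

/-- **Main theorem.**  The norm of `S` on polynomials of degree at most `n` grows at least like a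
positive power of `n`, for every `p ∈ (0,2)`; so it is unbounded for every `p ∈ (0,2)`. -/
theorem result :
    (∀ p : ℝ, 0 < p → p < 2 → ∃ c κ : ℝ, 0 < c ∧ 0 < κ ∧
      ∀ n : ℕ, ∃ P : ℂ[X], P ≠ 0 ∧ P.natDegree ≤ n ∧
        c * ((n : ℝ) + 1) ^ κ ≤ LpNorm p (S P) / LpNorm p P) ∧
    ¬ ∃ p c : ℝ, 0 < p ∧ p < 2 ∧ ∀ (n : ℕ) (P : ℂ[X]), P ≠ 0 → P.natDegree ≤ n →
        LpNorm p (S P) ≤ c * LpNorm p P := by
  have h1 : ∀ p : ℝ, 0 < p → p < 2 → ∃ c κ : ℝ, 0 < c ∧ 0 < κ ∧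
      ∀ n : ℕ, ∃ P : ℂ[X], P ≠ 0 ∧ P.natDegree ≤ n ∧
        c * ((n : ℝ) + 1) ^ κ ≤ LpNorm p (S P) / LpNorm p P :=
    fun p hp hp2 => V11320.TR.power_growth p hp hp2
  refine ⟨h1, ?_⟩
  rintro ⟨p, C, hp, hp2, hC⟩
  obtain ⟨c, κ, hc, hκ, h⟩ := h1 p hp hp2
  have htend : Filter.Tendsto (fun n : ℕ => c * ((n : ℝ) + 1) ^ κ) Filter.atTop Filter.atTop := by
    apply Filter.Tendsto.const_mul_atTop hc
    exact (tendsto_rpow_atTop hκ).comp
      (Filter.tendsto_atTop_add_const_right _ _ tendsto_natCast_atTop_atTop)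
  obtain ⟨n, hn⟩ := (htend.eventually_gt_atTop C).exists
  obtain ⟨P, hP0, hdeg, hP⟩ := h n
  have hpos : 0 < LpNorm p P := Real.rpow_pos_of_pos (V11320.TR.J_pos p hp P hP0) _
  have h2 := hC n P hP0 hdeg
  rw [le_div_iff₀ hpos] at hP
  have h3 : C * LpNorm p P < c * ((n : ℝ) + 1) ^ κ * LpNorm p P :=
    mul_lt_mul_of_pos_right hn hpos
  linarith

end Pool.Agent.Results.MP_2fd64a_an.Unbounded
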